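import Pool.Agent.H7.GU.Stmts

/-!
# Cliques split by their part in a set (row SPL of the board `gu8`)
-/

set_option autoImplicit false

open Finset

namespace Pool.GU7

open Pool.Agent.H23.KT Pool.Agent.H46.KW Pool.KQ Pool.GT7

section spl

variable {V : Type} [DecidableEq V] {G : SimpleGraph V}

/-- The links of the vertices of `Z`, counted by the cliques. -/
lemma SPL8_sum {W Z : Finset V} (hZ : Z ⊆ W) (j : ℕ) :
    ∑ y ∈ Z, kc G (nb G W y) (j + 1) = ∑ S ∈ clq G W (j + 2), (S ∩ Z).card := by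
  classical
  have h1 : ∀ y ∈ Z, kc G (nb G W y) (j + 1) =
      ∑ S ∈ clq G W (j + 2), if y ∈ S then 1 else 0 := by
    intro y hy
    rw [← sum_filter]
    have h := sum_link (G := G) (hZ hy) (j + 1) (fun _ => 1)
    rw [kc_eq, card_eq_sum_ones]
    exact h.symm
  rw [sum_congr rfl h1, sum_comm]
  refine sum_congr rfl (fun S _ => ?_)
  rw [← sum_filter, ← card_eq_sum_ones]
  congr 1
  ext y
  simp only [mem_filter, mem_inter]
  exact and_comm

/-- The cliques which avoid `A`. -/
lemma SPL8_avoid {W A : Finset V} (j : ℕ) :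
    ∑ S ∈ clq G W (j + 2), (if S ∩ A = ∅ then j + 2 else 0) =
      (j + 2) * kc G (W \ A) (j + 2) := by
  classical
  rw [← sum_filter, sum_const, smul_eq_mul, mul_comm, kc_eq]
  congr 2
  ext S
  rw [mem_filter, mem_clq, mem_clq]
  constructor
  · rintro ⟨⟨h1, h2, h3⟩, h4⟩
    refine ⟨?_, h2, h3⟩
    intro y hy
    rw [mem_sdiff]
    refine ⟨h1 hy, fun hA => ?_⟩
    have : y ∈ S ∩ A := mem_inter.2 ⟨hy, hA⟩
    rw [h4] at this
    exact notMem_empty _ this
  · rintro ⟨h1, h2, h3⟩
    refine ⟨⟨h1.trans sdiff_subset, h2, h3⟩, ?_⟩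
    rw [eq_empty_iff_forall_notMem]
    intro y hy
    rw [mem_inter] at hy
    exact (mem_sdiff.1 (h1 hy.1)).2 hy.2

/-- The cliques which contain a pair of `D`. -/
lemma SPL8_pairs {W : Finset V} (D : Finset (V × V)) (j : ℕ) :
    ∑ S ∈ clq G W (j + 2),
      (D.filter (fun d => d.1 ∈ S ∧ d.2 ∈ S ∧ d.1 ≠ d.2)).card ≤ D.card * W.card ^ j := by
  classical
  have h1 : ∀ S ∈ clq G W (j + 2), (D.filter (fun d => d.1 ∈ S ∧ d.2 ∈ S ∧ d.1 ≠ d.2)).card =
      ∑ d ∈ D, if d.1 ∈ S ∧ d.2 ∈ S ∧ d.1 ≠ d.2 then 1 else 0 := by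
    intro S _
    rw [card_eq_sum_ones, sum_filter]
  rw [sum_congr rfl h1, sum_comm, ← smul_eq_mul]
  refine sum_le_card_nsmul _ _ _ (fun d _ => ?_)
  rw [← sum_filter, ← card_eq_sum_ones]
  by_cases hd : d.1 = d.2
  · rw [filter_false_of_mem]
    · simp
    · rintro S _ ⟨_, _, h⟩
      exact h hd
  · refine (card_le_choose' (X := {d.1, d.2}) (S := W) (t := j) ?_).trans (Nat.choose_le_pow _ _)
    intro T hT
    rw [mem_filter, mem_clq] at hT
    obtain ⟨⟨h1, h2, h3⟩, h4, h5, h6⟩ := hT
    refine ⟨?_, sdiff_subset.trans h1, ?_⟩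
    · intro y hy
      rw [mem_insert, mem_singleton] at hy
      rcases hy with rfl | rfl
      · exact h4
      · exact h5
    · rw [card_pair h6, h2]

end spl

/-- (SPL) Cliques with `j + 1` vertices in `W`, split by their part in `A`. -/
theorem SPL_thm : SPLStmt := by
  classical
  intro V _ G W A Y D j hA hY hD
  have hW : (j + 2) * kc G W (j + 2) =
      ∑ v ∈ A, kc G (nb G W v) (j + 1) + ∑ S ∈ clq G W (j + 2), (S ∩ (W \ A)).card := by
    have h := kc_sum G W (j + 1)
    rw [show j + 1 + 1 = j + 2 from rfl] at h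
    rw [← h, ← SPL8_sum sdiff_subset j]
    have h5 := sum_sdiff (f := fun v => kc G (nb G W v) (j + 1)) hA
    omega
  have hsd : ∀ S ∈ clq G W (j + 2), (S ∩ (W \ A)).card + (S ∩ A).card = j + 2 := by
    intro S hS
    rw [mem_clq] at hS
    rw [← hS.2.1, ← card_union_of_disjoint]
    · congr 1
      ext y
      simp only [mem_union, mem_inter, mem_sdiff]
      constructor
      · rintro (⟨h, _⟩ | ⟨h, _⟩) <;> exact h
      · intro h
        by_cases hy : y ∈ A
        · exact Or.inr ⟨h, hy⟩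
        · exact Or.inl ⟨h, hS.1 h, hy⟩
    · rw [disjoint_left]
      intro y h1 h2
      rw [mem_inter, mem_sdiff] at h1
      exact h1.2.2 (mem_inter.1 h2).2
  constructor
  · have h : ∑ S ∈ clq G W (j + 2), (S ∩ (W \ A)).card ≤
        ∑ S ∈ clq G W (j + 2), ((if S ∩ A = ∅ then j + 2 else 0) + (j + 1) * (S ∩ A).card) := by
      refine sum_le_sum (fun S hS => ?_)
      have h1 := hsd S hS
      split_ifs with h2
      · omega
      · have h3 : 1 ≤ (S ∩ A).card := by
          rw [Nat.one_le_iff_ne_zero, Ne, card_eq_zero]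
          exact h2
        nlinarith
    rw [sum_add_distrib, SPL8_avoid, ← mul_sum, ← SPL8_sum hA] at h
    omega
  · have h : ∑ S ∈ clq G W (j + 2), (S ∩ (W \ A)).card ≤
        ∑ S ∈ clq G W (j + 2), ((if S ∩ A = ∅ then j + 2 else 0) + (S ∩ Y).card +
          (D.filter (fun d => d.1 ∈ S ∧ d.2 ∈ S ∧ d.1 ≠ d.2)).card) := by
      refine sum_le_sum (fun S hS => ?_)
      have h1 := hsd S hS
      split_ifs with h2
      · omega
      · obtain ⟨v, hv⟩ := nonempty_iff_ne_empty.2 h2
        rw [mem_inter] at hv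
        rw [mem_clq] at hS
        rw [zero_add]
        have h3 : (S ∩ (W \ A)) ⊆ (S ∩ Y) ∪
            ((D.filter (fun d => d.1 ∈ S ∧ d.2 ∈ S ∧ d.1 ≠ d.2)).image Prod.snd) := by
          intro y hy
          rw [mem_inter] at hy
          have hne : v ≠ y := by
            rintro rfl
            exact (mem_sdiff.1 hy.2).2 hv.2
          have hadj : G.Adj v y := hS.2.2 (mem_coe.2 hv.1) (mem_coe.2 hy.1) hne
          rw [mem_union]
          by_cases hd : (v, y) ∈ D
          · right
            rw [mem_image]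
            exact ⟨(v, y), mem_filter.2 ⟨hd, hv.1, hy.1, hne⟩, rfl⟩
          · left
            exact mem_inter.2 ⟨hy.1, hD v hv.2 y hy.2 hadj hd⟩
        refine (card_le_card h3).trans ((card_union_le _ _).trans ?_)
        exact Nat.add_le_add_left card_image_le _
    rw [sum_add_distrib, sum_add_distrib, SPL8_avoid,
      ← SPL8_sum (hY.trans sdiff_subset)] at h
    have h4 := SPL8_pairs (G := G) (W := W) D j
    omega

end Pool.GU7
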